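import Pool.Agent.helper10.CH.SpecZ
import Pool.Agent.helper39.FL.ZGI

/-! Row chz:CUG (MP_2e0e07_nt): global bounds for the Gamma factor `Γ_ℝ` -/

set_option autoImplicit false

open NumberField Complex

namespace Pool.Agent.UN

theorem CUG_n1 (s : ℂ) (h : s.re ≤ -1) : ‖s + 2‖ ≤ ‖s‖ := by
  refine abs_le_of_sq_le_sq' ?_ (norm_nonneg _) |>.2
  rw [← Complex.normSq_eq_norm_sq, ← Complex.normSq_eq_norm_sq, Complex.normSq_apply, Complex.normSq_apply]
  have h1 : (s + 2 : ℂ).re = s.re + 2 := by simp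
  have h2 : (s + 2 : ℂ).im = s.im := by simp
  rw [h1, h2]
  nlinarith

theorem CUG_n2 (s : ℂ) (h : 1 ≤ s.re) : ‖s - 2‖ ≤ ‖s‖ := by
  refine abs_le_of_sq_le_sq' ?_ (norm_nonneg _) |>.2
  rw [← Complex.normSq_eq_norm_sq, ← Complex.normSq_eq_norm_sq, Complex.normSq_apply, Complex.normSq_apply]
  have h1 : (s - 2 : ℂ).re = s.re - 2 := by simp
  have h2 : (s - 2 : ℂ).im = s.im := by simp
  rw [h1, h2]
  nlinarith

theorem CUG_inv (s : ℂ) (h : s ≠ 0) : (Gammaℝ s)⁻¹ = (Gammaℝ (s + 2))⁻¹ * (s / 2 / Real.pi) := by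
  rw [Gammaℝ_add_two h]
  have h1 : s / 2 / (Real.pi : ℂ) ≠ 0 := by
    refine div_ne_zero (div_ne_zero h two_ne_zero) ?_
    exact_mod_cast Real.pi_pos.ne'
  have h2 : Gammaℝ s * s / 2 / (Real.pi : ℂ) = Gammaℝ s * (s / 2 / (Real.pi : ℂ)) := by ring
  rw [h2, mul_inv, mul_assoc, inv_mul_cancel₀ h1, mul_one]

theorem CUG_np (s : ℂ) : ‖s / 2 / (Real.pi : ℂ)‖ = ‖s‖ / (2 * Real.pi) := by
  rw [norm_div, norm_div, norm_real, Real.norm_eq_abs, abs_of_pos Real.pi_pos, div_div]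
  simp

theorem CUG_a (C : ℝ) (hC : 0 < C)
    (h : ∀ z : ℂ, |z.re| ≤ 3 → ‖(Gammaℝ z)⁻¹‖ ≤ C * Real.exp (C * |z.im|)) (k : ℕ) :
    ∀ s : ℂ, |s.re| ≤ 3 + 2 * k → ‖(Gammaℝ s)⁻¹‖ ≤ C * Real.exp (C * |s.im|) * (‖s‖ + 7) ^ k := by
  induction k with
  | zero =>
    intro s hs
    rw [pow_zero, mul_one]
    exact h s (by simpa using hs)
  | succ k ih =>
    intro s hs
    have hn := norm_nonneg s
    have hE : 0 < C * Real.exp (C * |s.im|) := by positivity
    have hpi := Real.pi_gt_three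
    have hpi2 := Real.pi_lt_d2
    push_cast at hs
    rcases le_or_gt |s.re| (3 + 2 * k) with h1 | h1
    · refine (ih s h1).trans (mul_le_mul_of_nonneg_left ?_ hE.le)
      exact pow_le_pow_right₀ (by linarith) (Nat.le_succ k)
    · have hk : (0 : ℝ) ≤ k := Nat.cast_nonneg k
      rcases le_total 0 s.re with h2 | h2
      · rw [abs_of_nonneg h2] at h1 hs
        have hw : (s - 2 : ℂ).re = s.re - 2 := by simp
        have hwi : (s - 2 : ℂ).im = s.im := by simp
        have hw1 : 1 ≤ ‖s - 2‖ := by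
          refine le_trans ?_ (Complex.re_le_norm _)
          rw [hw]
          linarith
        have hw0 : s - 2 ≠ 0 := by
          intro h0
          rw [h0, norm_zero] at hw1
          linarith
        have h3 := CUG_inv (s - 2) hw0
        rw [sub_add_cancel] at h3
        have h4 : (Gammaℝ s)⁻¹ = (Gammaℝ (s - 2))⁻¹ * ((s - 2) / 2 / Real.pi)⁻¹ := by
          rw [h3, mul_assoc, mul_inv_cancel₀, mul_one]
          refine div_ne_zero (div_ne_zero hw0 two_ne_zero) ?_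
          exact_mod_cast Real.pi_pos.ne'
        have h5 := ih (s - 2) (by
          rw [hw, abs_of_nonneg (by linarith)]
          linarith)
        rw [hwi] at h5
        have h6 : ‖((s - 2) / 2 / (Real.pi : ℂ))⁻¹‖ ≤ ‖s‖ + 7 := by
          rw [norm_inv, CUG_np, inv_div, div_le_iff₀ (by linarith)]
          nlinarith
        have h7 := CUG_n2 s (by linarith)
        rw [h4, norm_mul, pow_succ, ← mul_assoc]
        refine mul_le_mul (h5.trans ?_) h6 (norm_nonneg _) (by positivity)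
        refine mul_le_mul_of_nonneg_left ?_ hE.le
        exact pow_le_pow_left₀ (by positivity) (by linarith) k
      · rw [abs_of_nonpos h2] at h1 hs
        have hw : (s + 2 : ℂ).re = s.re + 2 := by simp
        have hwi : (s + 2 : ℂ).im = s.im := by simp
        have hs0 : s ≠ 0 := by
          intro h0
          rw [h0] at h1
          simp at h1
          linarith
        have h5 := ih (s + 2) (by
          rw [hw, abs_of_nonpos (by linarith)]
          linarith)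
        rw [hwi] at h5
        have h6 : ‖s / 2 / (Real.pi : ℂ)‖ ≤ ‖s‖ + 7 := by
          rw [CUG_np, div_le_iff₀ (by linarith)]
          nlinarith
        have h7 := CUG_n1 s (by linarith)
        rw [CUG_inv s hs0, norm_mul, pow_succ, ← mul_assoc]
        refine mul_le_mul (h5.trans ?_) h6 (norm_nonneg _) (by positivity)
        refine mul_le_mul_of_nonneg_left ?_ hE.le
        exact pow_le_pow_left₀ (by positivity) (by linarith) k

theorem CUG_b1 : ∃ C : ℝ, 0 ≤ C ∧ ∀ s : ℂ, 1 ≤ s.re → s.re ≤ 3 → ‖Gammaℝ s‖ ≤ C := by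
  have h1 : ContinuousOn Real.Gamma (Set.Icc (1 / 2 : ℝ) (3 / 2)) := by
    intro x hx
    refine (Real.differentiableAt_Gamma ?_).continuousAt.continuousWithinAt
    intro m h
    have := hx.1
    have hm : (0 : ℝ) ≤ m := Nat.cast_nonneg m
    linarith
  obtain ⟨C, hC⟩ := isCompact_Icc.exists_bound_of_continuousOn h1
  refine ⟨|C|, abs_nonneg _, fun s h2 h3 => ?_⟩
  have h4 : (s / 2 : ℂ).re = s.re / 2 := by simp
  have h5 := Pool.Agent.FL.ZGI_Gamma_le (s / 2) (by rw [h4]; linarith)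
  have h6 := hC (s.re / 2) ⟨by linarith, by linarith⟩
  rw [h4] at h5
  have h7 : ‖((Real.pi : ℝ) : ℂ) ^ (-s / 2)‖ ≤ 1 := by
    rw [norm_cpow_eq_rpow_re_of_pos Real.pi_pos]
    refine Real.rpow_le_one_of_one_le_of_nonpos (by linarith [Real.pi_gt_three]) ?_
    have h8 : (-s / 2 : ℂ).re = -s.re / 2 := by simp
    rw [h8]
    linarith
  rw [Gammaℝ_def, norm_mul]
  calc ‖((Real.pi : ℝ) : ℂ) ^ (-s / 2)‖ * ‖Complex.Gamma (s / 2)‖ ≤ 1 * |C| := by
        refine mul_le_mul h7 (h5.trans ((le_abs_self _).trans (h6.trans (le_abs_self C)))) (norm_nonneg _) zero_le_one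
    _ = |C| := one_mul _

theorem CUG_b (C : ℝ) (hC : 0 ≤ C) (h : ∀ s : ℂ, 1 ≤ s.re → s.re ≤ 3 → ‖Gammaℝ s‖ ≤ C) (k : ℕ) :
    ∀ s : ℂ, 1 ≤ s.re → s.re ≤ 3 + 2 * k → ‖Gammaℝ s‖ ≤ C * (‖s‖ + 1) ^ k := by
  induction k with
  | zero =>
    intro s h1 h2
    rw [pow_zero, mul_one]
    exact h s h1 (by simpa using h2)
  | succ k ih =>
    intro s h1 h2
    have hn := norm_nonneg s
    have hpi := Real.pi_gt_three
    push_cast at h2
    rcases le_or_gt s.re (3 + 2 * k) with h3 | h3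
    · refine (ih s h1 h3).trans (mul_le_mul_of_nonneg_left ?_ hC)
      exact pow_le_pow_right₀ (by linarith) (Nat.le_succ k)
    · have hk : (0 : ℝ) ≤ k := Nat.cast_nonneg k
      have hw : (s - 2 : ℂ).re = s.re - 2 := by simp
      have hw1 : 1 ≤ ‖s - 2‖ := by
        refine le_trans ?_ (Complex.re_le_norm _)
        rw [hw]
        linarith
      have hw0 : s - 2 ≠ 0 := by
        intro h0
        rw [h0, norm_zero] at hw1
        linarith
      have h4 := Gammaℝ_add_two hw0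
      rw [sub_add_cancel] at h4
      have h5 : Gammaℝ (s - 2) * (s - 2) / 2 / (Real.pi : ℂ) = Gammaℝ (s - 2) * ((s - 2) / 2 / (Real.pi : ℂ)) := by ring
      have h6 : ‖(s - 2) / 2 / (Real.pi : ℂ)‖ ≤ ‖s‖ + 1 := by
        have h7 := CUG_n2 s h1
        rw [CUG_np, div_le_iff₀ (by linarith)]
        nlinarith
      have h7 := ih (s - 2) (by rw [hw]; linarith) (by rw [hw]; linarith)
      have h8 := CUG_n2 s h1
      rw [h4, h5, norm_mul, pow_succ, ← mul_assoc]
      refine mul_le_mul (h7.trans ?_) h6 (norm_nonneg _) (by positivity)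
      refine mul_le_mul_of_nonneg_left ?_ hC
      exact pow_le_pow_left₀ (by positivity) (by linarith) k

theorem CUG_l (x : ℝ) (hx : 0 ≤ x) : 1 ≤ 2 * Real.log (2 + x) := by
  have h1 : Real.log 2 ≤ Real.log (2 + x) := Real.log_le_log (by norm_num) (by linarith)
  have h2 := Real.log_two_gt_d9
  linarith

/-- `c ≤ exp (2 c (1 + x) log (2 + x))` -/
theorem CUG_c (c x : ℝ) (hc : 0 ≤ c) (hx : 0 ≤ x) : c * Real.exp (c * x) ≤ Real.exp (2 * c * (1 + x) * Real.log (2 + x)) := by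
  have h1 := CUG_l x hx
  have h2 : c ≤ Real.exp c := by linarith [Real.add_one_le_exp c]
  calc c * Real.exp (c * x) ≤ Real.exp c * Real.exp (c * x) := mul_le_mul_of_nonneg_right h2 (Real.exp_pos _).le
    _ = Real.exp (c * (1 + x)) := by rw [← Real.exp_add]; ring_nf
    _ ≤ _ := by
        refine Real.exp_le_exp.mpr ?_
        calc c * (1 + x) = c * (1 + x) * 1 := (mul_one _).symm
          _ ≤ c * (1 + x) * (2 * Real.log (2 + x)) := mul_le_mul_of_nonneg_left h1 (by positivity)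
          _ = _ := by ring

theorem CUG_p (x : ℝ) (hx : 0 ≤ x) : (x + 7) ^ ⌈x⌉₊ ≤ Real.exp (3 * (1 + x) * Real.log (2 + x)) := by
  have h1 : (⌈x⌉₊ : ℝ) ≤ 1 + x := by
    have := Nat.ceil_lt_add_one hx
    linarith
  have h2 : Real.log (x + 7) ≤ 3 * Real.log (2 + x) := by
    have h3 : x + 7 ≤ (2 + x) ^ 3 := by nlinarith [mul_nonneg hx hx, mul_nonneg hx (mul_nonneg hx hx)]
    calc Real.log (x + 7) ≤ Real.log ((2 + x) ^ 3) := Real.log_le_log (by linarith) h3
      _ = 3 * Real.log (2 + x) := by rw [Real.log_pow]; norm_num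
  have h3 := CUG_l x hx
  have h4 : (x + 7) ^ ⌈x⌉₊ = Real.exp (⌈x⌉₊ * Real.log (x + 7)) := by
    rw [Real.exp_nat_mul, Real.exp_log (by linarith)]
  rw [h4]
  refine Real.exp_le_exp.mpr ?_
  have h5 : 0 ≤ Real.log (x + 7) := Real.log_nonneg (by linarith)
  calc (⌈x⌉₊ : ℝ) * Real.log (x + 7) ≤ (1 + x) * (3 * Real.log (2 + x)) :=
        mul_le_mul h1 h2 h5 (by linarith)
    _ = _ := by ring

theorem CUG : CUG_stmt := by
  obtain ⟨C0, hC0, h0⟩ := Pool.Agent.FL.ZGI 3
  obtain ⟨C1, hC1, h1⟩ := CUG_b1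
  refine ⟨2 * C0 + 2 * C1 + 4, by linarith, fun s => ?_, fun s hs => ?_⟩
  · have hn := norm_nonneg s
    have hl := CUG_l ‖s‖ hn
    have h2 := CUG_a C0 hC0 h0 ⌈‖s‖⌉₊ s (by
      have h3 := Complex.abs_re_le_norm s
      have h4 := Nat.le_ceil ‖s‖
      have h5 : (0 : ℝ) ≤ ⌈‖s‖⌉₊ := Nat.cast_nonneg _
      linarith)
    have h3 : C0 * Real.exp (C0 * |s.im|) ≤ C0 * Real.exp (C0 * ‖s‖) := by
      refine mul_le_mul_of_nonneg_left (Real.exp_le_exp.mpr ?_) hC0.le
      exact mul_le_mul_of_nonneg_left (Complex.abs_im_le_norm s) hC0.le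
    calc ‖(Gammaℝ s)⁻¹‖ ≤ _ := h2
      _ ≤ Real.exp (2 * C0 * (1 + ‖s‖) * Real.log (2 + ‖s‖)) * Real.exp (3 * (1 + ‖s‖) * Real.log (2 + ‖s‖)) := by
          refine mul_le_mul (h3.trans (CUG_c C0 ‖s‖ hC0.le hn)) (CUG_p ‖s‖ hn) (by positivity) (Real.exp_pos _).le
      _ = Real.exp ((2 * C0 + 3) * (1 + ‖s‖) * Real.log (2 + ‖s‖)) := by
          rw [← Real.exp_add]
          ring_nf
      _ ≤ _ := by
          refine Real.exp_le_exp.mpr ?_
          have h5 : 0 ≤ (1 + ‖s‖) * Real.log (2 + ‖s‖) := mul_nonneg (by linarith) (by linarith)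
          rw [mul_assoc, mul_assoc]
          exact mul_le_mul_of_nonneg_right (by linarith) h5
  · have hn := norm_nonneg s
    have hl := CUG_l ‖s‖ hn
    have h2 := CUG_b C1 hC1 h1 ⌈‖s‖⌉₊ s hs (by
      have h3 := Complex.re_le_norm s
      have h4 := Nat.le_ceil ‖s‖
      have h5 : (0 : ℝ) ≤ ⌈‖s‖⌉₊ := Nat.cast_nonneg _
      linarith)
    have h3 : C1 ≤ C1 * Real.exp (C1 * ‖s‖) := le_mul_of_one_le_right hC1 (Real.one_le_exp (by positivity))
    calc ‖Gammaℝ s‖ ≤ _ := h2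
      _ ≤ Real.exp (2 * C1 * (1 + ‖s‖) * Real.log (2 + ‖s‖)) * Real.exp (3 * (1 + ‖s‖) * Real.log (2 + ‖s‖)) := by
          refine mul_le_mul (h3.trans (CUG_c C1 ‖s‖ hC1 hn)) ?_ (by positivity) (Real.exp_pos _).le
          refine le_trans ?_ (CUG_p ‖s‖ hn)
          exact pow_le_pow_left₀ (by positivity) (by linarith) _
      _ = Real.exp ((2 * C1 + 3) * (1 + ‖s‖) * Real.log (2 + ‖s‖)) := by
          rw [← Real.exp_add]
          ring_nf
      _ ≤ _ := by
          refine Real.exp_le_exp.mpr ?_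
          have h5 : 0 ≤ (1 + ‖s‖) * Real.log (2 + ‖s‖) := mul_nonneg (by linarith) (by linarith)
          rw [mul_assoc, mul_assoc]
          exact mul_le_mul_of_nonneg_right (by linarith) h5

end Pool.Agent.UN
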