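import Pool.Agent.helper10.CH.SpecZ
import Pool.Agent.helper8.FL.ZGR

/-! Row chz:CUP (MP_2e0e07_nt): uniform bound in the strip `-3/2 ≤ Re s ≤ 2` (Phragmén–Lindelöf) -/

set_option autoImplicit false

open NumberField Complex

namespace Pool.Agent.UN

theorem CUP_cj (q : ℝ) (hq0 : 0 < q) (z : ℂ) : (starRingEnd ℂ) ((q : ℂ) ^ z) = (q : ℂ) ^ ((starRingEnd ℂ) z) := by
  rw [cpow_conj _ _ (by rw [arg_ofReal_of_nonneg hq0.le]; exact Real.pi_pos.ne), conj_ofReal]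

theorem CUP_gc (z : ℂ) : ‖Gammaℝ ((starRingEnd ℂ) z)‖ = ‖Gammaℝ z‖ := by
  have h1 := CUP_cj Real.pi Real.pi_pos (-z / 2)
  have h2 : (starRingEnd ℂ) (z / 2) = (starRingEnd ℂ) z / 2 := by
    rw [map_div₀, map_ofNat]
  have h3 : (starRingEnd ℂ) (-z / 2) = -(starRingEnd ℂ) z / 2 := by
    rw [map_div₀, map_neg, map_ofNat]
  have h4 : (starRingEnd ℂ) (Gammaℝ z) = Gammaℝ ((starRingEnd ℂ) z) := by
    rw [Gammaℝ_def, Gammaℝ_def, map_mul, h1, h3, ← h2, Gamma_conj]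
  rw [← h4, RCLike.norm_conj]

/-- the line `Re s = -3/2` -/
theorem CUP_left (n : ℕ) (C₁ : ℝ) (hC : 1 ≤ C₁) (ι : Type) [Fintype ι] (e : ι → ℝ) (q : ℝ) (L : ℂ → ℂ)
    (hn : Fintype.card ι ≤ n) (he : ∀ i, e i = 0 ∨ e i = 1) (hq : 1 ≤ q)
    (hR : ∀ s : ℂ, 2 ≤ s.re → ‖L s‖ ≤ C₁ * (1 + ‖s‖))
    (hL : ∀ s : ℂ, s.re ≤ -(3 / 2) → ‖L s‖ ≤ C₁ * q ^ (1 / 2 - s.re) * ‖L (1 - (starRingEnd ℂ) s)‖ *
      ∏ i, (‖Gammaℝ (1 - s + e i)‖ * ‖(Gammaℝ (s + e i))⁻¹‖)) (s : ℂ) (hs : s.re = -(3 / 2)) :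
    ‖L s‖ ≤ C₁ ^ 2 * q ^ (2 : ℝ) * (‖s‖ + 5) ^ (2 * n + 1) := by
  have h0 := norm_nonneg s
  have h1 := hL s hs.le
  have e1 : (1 / 2 - s.re : ℝ) = 2 := by rw [hs]; norm_num
  have e2 : 1 - (starRingEnd ℂ) s = s + 4 := by
    apply Complex.ext
    · have : (1 - (starRingEnd ℂ) s).re = 1 - s.re := by simp
      rw [this]
      have : (s + 4 : ℂ).re = s.re + 4 := by simp
      rw [this, hs]
      norm_num
    · simp
  have h2 : ‖L (1 - (starRingEnd ℂ) s)‖ ≤ C₁ * (‖s‖ + 5) := by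
    rw [e2]
    refine (hR (s + 4) ?_).trans ?_
    · have : (s + 4 : ℂ).re = s.re + 4 := by simp
      rw [this, hs]
      norm_num
    · refine mul_le_mul_of_nonneg_left ?_ (by linarith)
      have h3 := norm_add_le s 4
      have h4 : ‖(4 : ℂ)‖ = 4 := by simp
      rw [h4] at h3
      linarith
  have h3 : ∏ i, (‖Gammaℝ (1 - s + e i)‖ * ‖(Gammaℝ (s + e i))⁻¹‖) ≤ (‖s‖ + 5) ^ (2 * n) := by
    have h4 : ∀ i ∈ (Finset.univ : Finset ι), ‖Gammaℝ (1 - s + e i)‖ * ‖(Gammaℝ (s + e i))⁻¹‖ ≤ (‖s‖ + 5) ^ 2 := by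
      intro i _
      have h5 : (starRingEnd ℂ) (1 - s + (e i : ℂ)) = s + (e i : ℂ) + 2 * ((2 : ℕ) : ℂ) := by
        rw [map_add, map_sub, map_one, conj_ofReal]
        have h6 : 1 - (starRingEnd ℂ) s = s + 4 := e2
        rw [h6]
        push_cast
        ring
      rw [← CUP_gc, h5]
      refine (Pool.Agent.FL.ZGR 2 (s + (e i : ℂ))).trans ?_
      refine pow_le_pow_left₀ (by positivity) ?_ 2
      have h6 := norm_add_le s (e i : ℂ)
      have h7 : ‖(e i : ℂ)‖ ≤ 1 := by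
        rcases he i with h | h <;> rw [h] <;> simp
      push_cast
      linarith
    calc ∏ i, (‖Gammaℝ (1 - s + e i)‖ * ‖(Gammaℝ (s + e i))⁻¹‖) ≤ ∏ _i : ι, (‖s‖ + 5) ^ 2 :=
          Finset.prod_le_prod (fun i _ => by positivity) h4
      _ = (‖s‖ + 5) ^ (2 * Fintype.card ι) := by rw [Finset.prod_const, Finset.card_univ, ← pow_mul]
      _ ≤ (‖s‖ + 5) ^ (2 * n) := pow_le_pow_right₀ (by linarith) (by omega)
  rw [e1] at h1
  have hq2 : 0 < q ^ (2 : ℝ) := Real.rpow_pos_of_pos (by linarith) _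
  calc ‖L s‖ ≤ _ := h1
    _ ≤ C₁ * q ^ (2 : ℝ) * (C₁ * (‖s‖ + 5)) * (‖s‖ + 5) ^ (2 * n) := by
        refine mul_le_mul (mul_le_mul_of_nonneg_left h2 (by positivity)) h3 ?_ (by positivity)
        exact Finset.prod_nonneg fun i _ => by positivity
    _ = _ := by ring

theorem CUP : CUP_stmt := by
  intro n C₁ hC ι _ e q L hn he hq hd ⟨B, hB⟩ hR hL s hs1 hs2
  have hq0 : 0 < q := by linarith
  have hq2 : 1 ≤ q ^ (2 : ℝ) := Real.one_le_rpow hq (by norm_num)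
  have hleft := CUP_left n C₁ hC ι e q L hn he hq hR hL
  obtain ⟨M, hM⟩ : ∃ M : ℝ, M = C₁ ^ 2 * 7 ^ (2 * n + 1) * q ^ (2 : ℝ) := ⟨_, rfl⟩
  have hM0 : 0 < M := by rw [hM]; positivity
  obtain ⟨G, hG⟩ : ∃ G : ℂ → ℂ, G = fun s => L s * ((s + 3)⁻¹) ^ (2 * n + 1) := ⟨_, rfl⟩
  have hfar : ∀ s : ℂ, -(3 / 2) ≤ s.re → 3 / 2 ≤ ‖s + 3‖ := by
    intro s hs
    refine le_trans ?_ (Complex.re_le_norm _)
    have : (s + 3 : ℂ).re = s.re + 3 := by simp
    rw [this]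
    linarith
  have hne : ∀ s : ℂ, -(3 / 2) ≤ s.re → s + 3 ≠ 0 := by
    intro s hs h0
    have := hfar s hs
    rw [h0, norm_zero] at this
    linarith
  have h7 : ∀ s : ℂ, -(3 / 2) ≤ s.re → ‖s‖ + 5 ≤ 7 * ‖s + 3‖ := by
    intro s hs
    have h1 := hfar s hs
    have h2 := norm_sub_le (s + 3) 3
    have h3 : ‖(3 : ℂ)‖ = 3 := by simp
    rw [h3, add_sub_cancel_right] at h2
    linarith
  have hclos : closure (Complex.re ⁻¹' Set.Ioo (-(3 / 2) : ℝ) (2 : ℝ)) ⊆ {s : ℂ | -(3 / 2) ≤ s.re} := by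
    refine closure_minimal (fun s hs => hs.1.le) (isClosed_le continuous_const Complex.continuous_re)
  have hdc : DiffContOnCl ℂ G (Complex.re ⁻¹' Set.Ioo (-(3 / 2) : ℝ) (2 : ℝ)) := by
    refine DifferentiableOn.diffContOnCl fun s hs => DifferentiableAt.differentiableWithinAt ?_
    have hd1 : DifferentiableAt ℂ (fun s : ℂ => s + 3) s := by fun_prop
    have hd2 : DifferentiableAt ℂ (fun s : ℂ => (s + 3)⁻¹) s := hd1.fun_inv (hne s (hclos hs))
    rw [hG]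
    exact (hd s).fun_mul (hd2.fun_pow _)
  have hGn : ∀ s : ℂ, -(3 / 2) ≤ s.re → ‖L s‖ = ‖G s‖ * ‖s + 3‖ ^ (2 * n + 1) := by
    intro s hs
    rw [hG]
    simp only
    rw [norm_mul, norm_pow, norm_inv, mul_assoc, ← mul_pow, inv_mul_cancel₀, one_pow, mul_one]
    exact norm_ne_zero_iff.mpr (hne s hs)
  have hGle : ∀ s : ℂ, -(3 / 2) ≤ s.re → ∀ X : ℝ, ‖L s‖ ≤ X * ‖s + 3‖ ^ (2 * n + 1) → ‖G s‖ ≤ X := by
    intro s hs X h
    rw [hGn s hs] at h
    have h1 := hfar s hs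
    exact le_of_mul_le_mul_right h (by positivity)
  have hmain : ‖G s‖ ≤ M := by
    refine PhragmenLindelof.vertical_strip hdc ?_ ?_ ?_ hs1 hs2
    · obtain ⟨c, hc⟩ : ∃ c : ℝ, c = Real.pi / (2 - -(3 / 2)) / 2 := ⟨_, rfl⟩
      have hc0 : 0 < c := by rw [hc]; positivity
      refine ⟨c, by rw [hc]; exact half_lt_self (by positivity), |B| / c, ?_⟩
      refine Asymptotics.IsBigO.of_bound |B| ?_
      refine Filter.Eventually.filter_mono inf_le_right (Filter.eventually_principal.2 fun z hz => ?_)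
      have hz1 : -(3 / 2) ≤ z.re := hz.1.le
      have hz2 : |z.re| ≤ 2 := by
        rw [abs_le]
        have := hz.1
        have := hz.2
        constructor <;> linarith
      have h2 : ‖L z‖ ≤ |B| * Real.exp (|B| * |z.im|) := by
        refine (hB z hz2).trans ?_
        refine mul_le_mul (le_abs_self B) ?_ (Real.exp_pos _).le (abs_nonneg _)
        exact Real.exp_le_exp.mpr (mul_le_mul_of_nonneg_right (le_abs_self B) (abs_nonneg _))
      have h3 : ‖G z‖ ≤ |B| * Real.exp (|B| * |z.im|) := by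
        refine hGle z hz1 _ (h2.trans ?_)
        refine le_mul_of_one_le_right (by positivity) (one_le_pow₀ ?_)
        have := hfar z hz1
        linarith
      refine h3.trans (mul_le_mul_of_nonneg_left ?_ (abs_nonneg _))
      rw [Real.norm_eq_abs, abs_of_pos (Real.exp_pos _)]
      refine Real.exp_le_exp.2 ?_
      have h4 : c * |z.im| ≤ Real.exp (c * |z.im|) := by
        have := Real.add_one_le_exp (c * |z.im|)
        linarith
      calc |B| * |z.im| = |B| / c * (c * |z.im|) := by field_simp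
        _ ≤ |B| / c * Real.exp (c * |z.im|) := mul_le_mul_of_nonneg_left h4 (by positivity)
    · intro z hz
      refine hGle z hz.ge _ ?_
      refine (hleft z hz).trans ?_
      rw [hM]
      calc C₁ ^ 2 * q ^ (2 : ℝ) * (‖z‖ + 5) ^ (2 * n + 1) ≤ C₁ ^ 2 * q ^ (2 : ℝ) * (7 * ‖z + 3‖) ^ (2 * n + 1) := by
            refine mul_le_mul_of_nonneg_left ?_ (by positivity)
            exact pow_le_pow_left₀ (by positivity) (h7 z hz.ge) _
        _ = _ := by rw [mul_pow]; ring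
    · intro z hz
      have hz' : -(3 / 2) ≤ z.re := by rw [hz]; norm_num
      refine hGle z hz' _ ?_
      refine (hR z hz.ge).trans ?_
      have h1 := h7 z hz'
      have h2 := hfar z hz'
      have h3 : 1 + ‖z‖ ≤ (7 * ‖z + 3‖) ^ (2 * n + 1) := by
        calc 1 + ‖z‖ ≤ 7 * ‖z + 3‖ := by linarith
          _ ≤ (7 * ‖z + 3‖) ^ (2 * n + 1) := le_self_pow₀ (by linarith) (by omega)
      have h4 : C₁ ≤ C₁ ^ 2 * q ^ (2 : ℝ) := by nlinarith
      calc C₁ * (1 + ‖z‖) ≤ (C₁ ^ 2 * q ^ (2 : ℝ)) * (7 * ‖z + 3‖) ^ (2 * n + 1) :=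
            mul_le_mul h4 h3 (by positivity) (by positivity)
        _ = M * ‖z + 3‖ ^ (2 * n + 1) := by rw [hM, mul_pow]; ring
  rw [hGn s hs1, ← hM]
  exact mul_le_mul_of_nonneg_right hmain (by positivity)

end Pool.Agent.UN
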