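import Pool.Agent.helper28.UN.CLS
import Pool.Agent.helper44.UN.FIN0
import Pool.Agent.helper51.UN.IDM
import Pool.Agent.helper54.UN.FSM
import Pool.Agent.helper55.UN.PRO
import Pool.Agent.helper59.UN.IDN
import Pool.Agent.helper82.UN.AllP
import Pool.Agent.helper88.UN.HGC
import Pool.Agent.helper18.UNH.SAP
import Pool.Agent.helper95.UNH.SGN
import Pool.Agent.helper23.UNH.AIF
import Pool.Agent.helper60.UNH.DUA
import Pool.Agent.helper65.UNH.REP
import Pool.Agent.helper40.UNH.NUC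
import Pool.Agent.helper78.UNH.GS0
import Pool.Agent.helper51.UNH.GSA
import Pool.Agent.helper9.UNH.GSB
import Pool.Agent.helper63.UNH.GEN
import Pool.Agent.helper41.UNH.GSD
import Pool.Agent.helper43.UNH.SPT
import Pool.Agent.helper57.UNH.PTF
import Pool.Agent.helper92.UNH.SFE
import Pool.Agent.helper39.UNH.STH
import Pool.Agent.helper31.UNH.TFE
import Pool.Agent.helper1.UNH.VFE
import Pool.Agent.helper1.UNH.VHD
import Pool.Agent.helper1.UNH.VMX
import Pool.Agent.helper1.UNH.VPR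
import Pool.Agent.helper14.UNH.VUT
import Pool.Agent.helper18.UNH.VHI
import Pool.Agent.helper2.UNH.VGN
import Pool.Agent.helper24.UNH.VNF
import Pool.Agent.helper27.UNH.VZS
import Pool.Agent.helper29.UNH.VFX
import Pool.Agent.helper31.UNH.VLG
import Pool.Agent.helper38.UNH.VLV
import Pool.Agent.helper38.UNH.VQB
import Pool.Agent.helper40.UNH.VG1
import Pool.Agent.helper48.UNH.VCL
import Pool.Agent.helper53.UNH.VLB
import Pool.Agent.helper54.UNH.VCB
import Pool.Agent.helper59.UNH.VID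
import Pool.Agent.helper59.UNH.VML
import Pool.Agent.helper60.UNH.VFN
import Pool.Agent.helper73.UNH.VCT
import Pool.Agent.helper78.UNH.VQD
import Pool.Agent.helper82.UNH.VFS
import Pool.Agent.helper88.UNH.VTQ
import Pool.Agent.helper92.UNH.VHC
import Pool.Agent.helper95.UNH.VMC
import Pool.Agent.helper98.UNH.VCA
import Pool.Agent.helper87.UNH.AllL
import Pool.Agent.helper1.CH.CZH
import Pool.Agent.helper1.CH.CZM
import Pool.Agent.helper1.CH.CZW
import Pool.Agent.helper10.CH.CZE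
import Pool.Agent.helper10.CH.CUG
import Pool.Agent.helper10.CH.CUP
import Pool.Agent.helper27.CH.CZR
import Pool.Agent.helper54.CH.CZN
import Pool.Agent.helper63.CH.CUB
import Pool.Agent.helper63.CH.CUD
import Pool.Agent.helper66.CH.CUL
import Pool.Agent.helper66.CH.CUZ
import Pool.Agent.helper89.CH.CZT

/-!
# Project CH (MP_2e0e07_nt), block Z, complete: theorems without hypotheses

`hHLE` (Hecke: every primitive unitary Hecke character which is not a power of the norm has an entire L-function with functional equation),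
`hHLZ` (`(s - 1) ζ_K(s)` is entire), `hCZN`, `hCZT`, `hUBL`, `hUBZ` (uniform bounds). Light imports: only block H of project UN.
-/

set_option autoImplicit false

namespace Pool.Agent.UN.AllZ

theorem hPRO : PRO_stmt := UN.PRO
theorem hFIN0 : FIN0_stmt := UN.FIN0
theorem hHGC : HGC_stmt := UN.HGC
theorem hIDN : IDN_stmt := UN.IDN UN.IDM
theorem hFSM : FSM_stmt := UN.FSM hIDN hFIN0 hPRO
theorem hCLS : CLS_stmt := UN.CLS
theorem hSGN : SGN_stmt := UN.SGN UN.SAP
theorem hREP : REP_stmt := UN.REP hCLS hPRO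
theorem hGSA : GSA_stmt := UN.GSA UN.GS0
theorem hGSB : GSB_stmt := UN.GSB hGSA UN.GS0
theorem hGEN : GEN_stmt := UN.GEN UN.DUA
theorem hGSD : GSD_stmt := UN.GSD hGSA UN.GS0 hGEN UN.DUA UN.AIF
theorem hSPT : SPT_stmt := UN.SPT UN.NUC
theorem hPTF : PTF_stmt := UN.PTF UN.PNF_all hSPT UN.DUA
theorem hSFE : SFE_stmt := UN.SFE hPTF hGEN hGSA UN.GS0 UN.AIF
theorem hSTH : STH_stmt := UN.STH UN.PNF_all UN.AIF
theorem hTFE : TFE_stmt := UN.TFE UN.HGC hSGN UN.AIF hREP UN.NUC hGEN hGSB hGSD hSTH hSFE hPRO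
theorem hVLV : VLV_stmt := UN.VLV hPRO
theorem hVTQ : VTQ_stmt := UN.VTQ hVLV
theorem hVHI : VHI_stmt := UN.VHI hVTQ hVLV
theorem hVFE : VFE_stmt := UN.VFE hVLV hVHI UN.VFN hPRO hHGC
theorem hVCA : VCA_stmt := UN.VCA UN.VFN hVLV
theorem hVCT : VCT_stmt := UN.VCT hVCA UN.VCB hVLV hHGC hPRO
theorem hVQD : VQD_stmt := UN.VQD UN.VQB hVLV
theorem hVLB : VLB_stmt := UN.VLB UN.PNF_all hPRO
theorem hVHC : VHC_stmt := UN.VHC hVQD hVLB hVLV
theorem hVHD : VHD_stmt := UN.VHD hVCT hVHC hVLV hHGC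
theorem hVGN : VGN_stmt := UN.VGN UN.VG1
theorem hVLG : VLG_stmt := UN.VLG hVGN UN.VQB hVLV hPRO
theorem hVNF : VNF_stmt := UN.VNF UN.VUT UN.VPR UN.VFS
theorem hVMC : VMC_stmt := UN.VMC hVLG hVNF hVTQ UN.VMX
theorem hVZS : VZS_stmt := UN.VZS hIDN hFIN0 hPRO
theorem hVID : VID_stmt := UN.VID hVZS
theorem hMEL : MEL_stmt := UN.VML hTFE UN.VFX hVFE hVHD UN.VCL hVMC hVID hHGC hPRO
theorem hHLE : HLE_stmt := UN.L_all hFSM hMEL
theorem hCZT : CZT_stmt := UN.CZT
theorem hCZN : CZN_stmt := UN.CZN hPRO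
theorem hCZH : CZH_stmt := UN.CZH hVHC hVLV hCZT
theorem hCZM : CZM_stmt := UN.CZM hTFE UN.VFX hVFE hCZH UN.VCL hVMC hVID hCZT hPRO
theorem hHLZ : HLZE_stmt := UN.CZE hCZM UN.CZW UN.LGP
theorem hCZR : CZR_stmt := UN.CZR hVZS
theorem hCUB : CUB_stmt := UN.CUB UN.CUP UN.CUG
theorem hCUD : CUD_stmt := UN.CUD hIDN hFIN0 hPRO
theorem hUBL : UBL_stmt := UN.CUL hCUB hCUD hPRO
theorem hUBZ : UBZ_stmt := UN.CUZ hCUB hCUD hPRO

end Pool.Agent.UN.AllZ
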