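import Pool.Agent.helper10.CH.SpecZ
import Pool.Agent.helper39.FL.ZGI

/-! Row chz:CZE (MP_2e0e07_nt): `(s - 1) ζ_K(s)` is entire, with Hecke's functional equation -/

set_option autoImplicit false

open NumberField Complex

namespace Pool.Agent.UN

theorem CZE_D (K : Type) [Field K] [NumberField K] : 1 ≤ Dc K := by
  have h : (1 : ℤ) ≤ |NumberField.discr K| := Int.one_le_abs (NumberField.discr_ne_zero K)
  have h2 : ((1 : ℤ) : ℝ) ≤ ((|NumberField.discr K| : ℤ) : ℝ) := by exact_mod_cast h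
  rw [Int.cast_one, Int.cast_abs] at h2
  exact h2

theorem CZE_cj (q : ℝ) (hq0 : 0 < q) (z : ℂ) : (starRingEnd ℂ) ((q : ℂ) ^ z) = (q : ℂ) ^ ((starRingEnd ℂ) z) := by
  rw [cpow_conj _ _ (by rw [arg_ofReal_of_nonneg hq0.le]; exact Real.pi_pos.ne), conj_ofReal]

theorem CZE_gc (z : ℂ) : (starRingEnd ℂ) (Gammaℝ z) = Gammaℝ ((starRingEnd ℂ) z) := by
  have h1 := CZE_cj Real.pi Real.pi_pos (-z / 2)
  have h2 : (starRingEnd ℂ) (z / 2) = (starRingEnd ℂ) z / 2 := by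
    rw [map_div₀, map_ofNat]
  have h3 : (starRingEnd ℂ) (-z / 2) = -(starRingEnd ℂ) z / 2 := by
    rw [map_div₀, map_neg, map_ofNat]
  rw [Gammaℝ_def, Gammaℝ_def, map_mul, h1, h3, ← h2, Gamma_conj]

/-- growth of a product of inverse Gamma factors -/
theorem CZE_gr {ι : Type} [Fintype ι] (μ : ι → ℝ) (h : ∀ i, μ i = 0 ∨ μ i = 1) (A : ℝ) :
    ∃ K c : ℝ, 0 ≤ K ∧ 0 ≤ c ∧ ∀ s : ℂ, |s.re| ≤ A → ‖∏ i, (Gammaℝ (s + μ i))⁻¹‖ ≤ K * Real.exp (c * |s.im|) := by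
  obtain ⟨C, hC, hb⟩ := Pool.Agent.FL.ZGI (A + 1)
  refine ⟨C ^ Fintype.card ι, Fintype.card ι * C, by positivity, by positivity, fun s hs => ?_⟩
  rw [norm_prod]
  have h1 : ∀ i ∈ (Finset.univ : Finset ι), ‖(Gammaℝ (s + μ i))⁻¹‖ ≤ C * Real.exp (C * |s.im|) := by
    intro i _
    have h2 : |(s + (μ i : ℂ)).re| ≤ A + 1 := by
      rw [add_re, ofReal_re]
      have := abs_le.mp hs
      rcases h i with h3 | h3 <;> rw [h3, abs_le] <;> constructor <;> linarith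
    have h3 := hb _ h2
    rwa [add_im, ofReal_im, add_zero] at h3
  refine (Finset.prod_le_prod (fun i _ => norm_nonneg _) h1).trans ?_
  rw [Finset.prod_const, Finset.card_univ, mul_pow, ← Real.exp_nat_mul, mul_assoc (Fintype.card ι : ℝ)]

theorem CZE (hCZM : CZM_stmt) (hCZW : CZW_stmt) (hLGP : LGP_stmt) : HLZE_stmt := by
  intro K _ _
  obtain ⟨e, ε, c₀, κ, h, he1, hec, hc0, hε, hκ, hcont, hdec, hfe, hmel⟩ := hCZM K
  obtain ⟨n, hn⟩ : ∃ n : ℕ, n = Module.finrank ℚ K := ⟨_, rfl⟩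
  rw [← hn] at hfe hmel
  have hn0 : 0 < n := by rw [hn]; exact Module.finrank_pos
  have hn0' : (0 : ℝ) < n := by exact_mod_cast hn0
  have hnc : (n : ℂ) ≠ 0 := by exact_mod_cast hn0.ne'
  obtain ⟨W, hWd, hW0, hWf, hWb, hWm⟩ := hCZW h ((n : ℝ) / 2) ε c₀ (by positivity) hε hcont hdec hfe
  obtain ⟨e', C, hC, he', hprod⟩ := hLGP K (fun _ => 0) (fun _ => 0) e (fun _ _ => rfl) he1 hec
  have hCc : (C : ℂ) ≠ 0 := by exact_mod_cast hC.ne'
  obtain ⟨q, hq⟩ : ∃ q : ℝ, q = Dc K := ⟨_, rfl⟩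
  have hq1 : 1 ≤ q := by rw [hq]; exact CZE_D K
  have hq0 : (0 : ℝ) < q := by linarith
  have hqc : (q : ℂ) ≠ 0 := by exact_mod_cast hq0.ne'
  have hκc : (κ : ℂ) ≠ 0 := by exact_mod_cast hκ.ne'
  rw [← hq] at hmel
  have hprod' : ∀ s : ℂ, ∏ σ : K →+* ℂ, Gammaℝ (s + e' σ) = C * gf (fun _ => 0) (aa (fun _ => 0) e) s := by
    intro s
    rw [← hprod s]
    refine Finset.prod_congr rfl fun σ _ => ?_
    congr 1
    simp
  have hne : ∀ s : ℂ, 0 < s.re → ∏ σ : K →+* ℂ, Gammaℝ (s + e' σ) ≠ 0 := by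
    intro s hs
    refine Finset.prod_ne_zero_iff.mpr fun σ _ => Gammaℝ_ne_zero_of_re_pos ?_
    rw [add_re, ofReal_re]
    rcases he' σ with h1 | h1 <;> rw [h1] <;> linarith
  obtain ⟨a₀, ha₀⟩ : ∃ a₀ : ℝ, a₀ = -(4 * C / (n ^ 2 * κ)) := ⟨_, rfl⟩
  have ha : (a₀ : ℂ) = -(4 * C / (n ^ 2 * κ)) := by rw [ha₀]; push_cast; rfl
  obtain ⟨Y, hY⟩ : ∃ Y : ℂ → ℂ, Y = fun s => (a₀ : ℂ) * (q : ℂ) ^ (-(s / 2)) * W (n * s / 2) *
      ∏ σ : K →+* ℂ, (Gammaℝ (s + e' σ))⁻¹ := ⟨_, rfl⟩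
  have hYs : ∀ s, Y s = (a₀ : ℂ) * (q : ℂ) ^ (-(s / 2)) * W (n * s / 2) *
      ∏ σ : K →+* ℂ, (Gammaℝ (s + e' σ))⁻¹ := fun s => by rw [hY]
  have hYd : Differentiable ℂ Y := by
    rw [hY]
    intro s
    refine DifferentiableAt.mul (DifferentiableAt.mul (DifferentiableAt.mul (differentiableAt_const _) ?_) ?_) ?_
    · exact DifferentiableAt.const_cpow (by fun_prop) (Or.inl hqc)
    · have h1 : Differentiable ℂ fun s : ℂ => (n : ℂ) * s / 2 := by fun_prop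
      exact (hWd.comp h1) s
    · refine DifferentiableAt.fun_finsetProd fun σ _ => ?_
      have h1 : Differentiable ℂ fun s : ℂ => s + (e' σ : ℂ) := by fun_prop
      exact (differentiable_Gammaℝ_inv.comp h1) s
  have hYser : ∀ s : ℂ, 1 < s.re → Y s = s * ((s - 1) * ∑' a : Ideal (𝓞 K), tc K a * (Nm a : ℂ) ^ (-s)) := by
    intro s hs
    have h1 := hne s (by linarith)
    have h2 : (q : ℂ) ^ (-(s / 2)) * (q : ℂ) ^ (s / 2) = 1 := by
      rw [← cpow_add _ _ hqc, neg_add_cancel, cpow_zero]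
    have h5 : (((n : ℝ) / 2 : ℝ) : ℂ) = (n : ℂ) / 2 := by push_cast; rfl
    have h6 : (n : ℝ) / 2 < ((n : ℂ) * s / 2).re := by
      have h4 : ((n : ℂ) * s / 2).re = n * s.re / 2 := by simp
      rw [h4]
      have := mul_lt_mul_of_pos_left hs hn0'
      linarith
    rw [hYs, hWm _ h6, hmel s hs, Finset.prod_inv_distrib, h5]
    have h3 : C * gf (fun _ => 0) (aa (fun _ => 0) e) s * (∏ σ : K →+* ℂ, Gammaℝ (s + e' σ))⁻¹ = 1 := by
      rw [← hprod' s, mul_inv_cancel₀ h1]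
    have h4 : (a₀ : ℂ) * (-(n ^ 2 / 4) * κ) = C := by
      rw [ha]
      field_simp
    obtain ⟨ζ, hζ⟩ : ∃ ζ, ζ = ∑' a : Ideal (𝓞 K), tc K a * (Nm a : ℂ) ^ (-s) := ⟨_, rfl⟩
    obtain ⟨G, hG⟩ : ∃ G, G = gf (fun _ => 0) (aa (fun _ => 0) e) s := ⟨_, rfl⟩
    obtain ⟨P, hP⟩ : ∃ P, P = (∏ σ : K →+* ℂ, Gammaℝ (s + e' σ))⁻¹ := ⟨_, rfl⟩
    rw [← hζ, ← hG, ← hP]
    rw [← hG, ← hP] at h3
    calc (a₀ : ℂ) * (q : ℂ) ^ (-(s / 2)) * ((n : ℂ) * s / 2 * ((n : ℂ) / 2 - (n : ℂ) * s / 2) *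
          (κ * (q : ℂ) ^ (s / 2) * G * ζ)) * P
        = ((a₀ : ℂ) * (-(n ^ 2 / 4) * κ)) * ((q : ℂ) ^ (-(s / 2)) * (q : ℂ) ^ (s / 2)) * (G * P) * (s * ((s - 1) * ζ)) := by ring
      _ = (C * G * P) * (s * ((s - 1) * ζ)) := by rw [h4, h2]; ring
      _ = _ := by rw [h3, one_mul]
  have hY0 : Y 0 = 0 := by
    rcases hc0 with h0 | h0
    · rw [hYs, mul_zero, zero_div, hW0 h0, mul_zero, zero_mul]
    · have h1 : gf (fun _ => 0) (aa (fun _ => 0) e) (0 : ℂ) = (0 : ℂ) := by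
        obtain ⟨w⟩ : Nonempty (InfinitePlace K) := inferInstance
        unfold gf
        refine Finset.prod_eq_zero (Finset.mem_univ w) ?_
        have h2 : ex (fun _ => 0) (aa (fun _ => 0) e) w + (w.mult : ℂ) * 0 / 2 = 0 := by
          unfold ex aa
          rw [h0 w]
          simp
        rw [h2, Complex.Gamma_zero, mul_zero]
      have h2 := hprod' 0
      rw [h1, mul_zero, Finset.prod_eq_zero_iff] at h2
      obtain ⟨σ, _, hσ⟩ := h2
      rw [hYs]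
      refine mul_eq_zero_of_right _ ?_
      refine Finset.prod_eq_zero (Finset.mem_univ σ) ?_
      rw [hσ, inv_zero]
  have hYf : ∀ s : ℂ, (q : ℂ) ^ (s / 2) * Y s * ∏ σ : K →+* ℂ, (Gammaℝ (1 - s + e' σ))⁻¹ =
      ε * ((q : ℂ) ^ ((1 - s) / 2) * (starRingEnd ℂ) (Y (1 - (starRingEnd ℂ) s)) * ∏ σ : K →+* ℂ, (Gammaℝ (s + e' σ))⁻¹) := by
    intro s
    have h1 : W (n * s / 2) = ε * (starRingEnd ℂ) (W (n * (1 - (starRingEnd ℂ) s) / 2)) := by
      rw [hWf]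
      congr 3
      rw [map_div₀, map_mul, map_ofNat, map_natCast]
      push_cast
      ring
    have h2 : (starRingEnd ℂ) (Y (1 - (starRingEnd ℂ) s)) = (a₀ : ℂ) * (q : ℂ) ^ (-((1 - s) / 2)) *
        (starRingEnd ℂ) (W (n * (1 - (starRingEnd ℂ) s) / 2)) *
        ∏ σ : K →+* ℂ, (Gammaℝ (1 - s + e' σ))⁻¹ := by
      rw [hYs, map_mul, map_mul, map_mul, CZE_cj q hq0, map_prod]
      congr 1
      · congr 1
        congr 1
        · rw [conj_ofReal]
        · congr 1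
          rw [map_neg, map_div₀, map_sub, map_one, conj_conj, map_ofNat]
      · refine Finset.prod_congr rfl fun σ _ => ?_
        rw [map_inv₀, CZE_gc, map_add, map_sub, map_one, conj_conj, conj_ofReal]
    have h3 : (q : ℂ) ^ (s / 2) * (q : ℂ) ^ (-(s / 2)) = 1 := by
      rw [← cpow_add _ _ hqc, add_neg_cancel, cpow_zero]
    have h4 : (q : ℂ) ^ ((1 - s) / 2) * (q : ℂ) ^ (-((1 - s) / 2)) = 1 := by
      rw [← cpow_add _ _ hqc, add_neg_cancel, cpow_zero]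
    rw [h2, hYs, h1]
    obtain ⟨P1, hP1⟩ : ∃ P1, P1 = ∏ σ : K →+* ℂ, (Gammaℝ (s + e' σ))⁻¹ := ⟨_, rfl⟩
    obtain ⟨P2, hP2⟩ : ∃ P2, P2 = ∏ σ : K →+* ℂ, (Gammaℝ (1 - s + e' σ))⁻¹ := ⟨_, rfl⟩
    obtain ⟨M, hM⟩ : ∃ M, M = (starRingEnd ℂ) (W (n * (1 - (starRingEnd ℂ) s) / 2)) := ⟨_, rfl⟩
    rw [← hP1, ← hP2, ← hM]
    calc (q : ℂ) ^ (s / 2) * ((a₀ : ℂ) * (q : ℂ) ^ (-(s / 2)) * (ε * M) * P1) * P2
        = ((q : ℂ) ^ (s / 2) * (q : ℂ) ^ (-(s / 2))) * ((a₀ : ℂ) * ε * M * P1 * P2) := by ring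
      _ = ((q : ℂ) ^ ((1 - s) / 2) * (q : ℂ) ^ (-((1 - s) / 2))) * ((a₀ : ℂ) * ε * M * P1 * P2) := by rw [h3, h4]
      _ = _ := by ring
  obtain ⟨Z, hZ⟩ : ∃ Z : ℂ → ℂ, Z = dslope Y 0 := ⟨_, rfl⟩
  have hZs : ∀ s, s * Z s = Y s := by
    intro s
    have h1 := sub_smul_dslope Y 0 s
    rw [sub_zero, hY0, sub_zero, smul_eq_mul] at h1
    rw [hZ, h1]
  have hZd : Differentiable ℂ Z := by
    rw [hZ]
    have h1 : DifferentiableOn ℂ (dslope Y 0) Set.univ :=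
      (Complex.differentiableOn_dslope (Filter.univ_mem)).mpr hYd.differentiableOn
    exact differentiableOn_univ.mp h1
  refine ⟨Z, hZd, ?_, ?_, ε, e', hε, he', ?_⟩
  · intro A
    obtain ⟨K1, c1, hK1, hc1, hg⟩ := CZE_gr e' he' A
    obtain ⟨M, hM⟩ := hWb (n * A / 2)
    obtain ⟨B2, hB2⟩ := (isCompact_closedBall (0 : ℂ) 1).exists_bound_of_continuousOn hZd.continuous.continuousOn
    obtain ⟨K2, hK2⟩ : ∃ K2, K2 = |a₀| * q ^ (A / 2) * |M| * K1 := ⟨_, rfl⟩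
    have hK20 : 0 ≤ K2 := by rw [hK2]; positivity
    obtain ⟨B, hB⟩ : ∃ B, B = max (max K2 (n + c1)) B2 := ⟨_, rfl⟩
    have hBK : K2 ≤ B := by rw [hB]; exact (le_max_left _ _).trans (le_max_left _ _)
    have hBn : n + c1 ≤ B := by rw [hB]; exact (le_max_right _ _).trans (le_max_left _ _)
    have hBB : B2 ≤ B := by rw [hB]; exact le_max_right _ _
    have hB0 : 0 ≤ B := hK20.trans hBK
    refine ⟨B, fun s hs => ?_⟩
    have hexp : 1 ≤ Real.exp (B * |s.im|) := Real.one_le_exp (by positivity)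
    rcases le_total ‖s‖ 1 with hs1 | hs1
    · have h1 := hB2 s (by rw [Metric.mem_closedBall, dist_zero_right]; exact hs1)
      calc ‖Z s‖ ≤ B := h1.trans hBB
        _ = B * 1 := (mul_one B).symm
        _ ≤ B * Real.exp (B * |s.im|) := mul_le_mul_of_nonneg_left hexp hB0
    · have h1 : ‖Z s‖ ≤ ‖Y s‖ := by
        rw [← hZs s, norm_mul]
        exact le_mul_of_one_le_left (norm_nonneg _) hs1
      refine h1.trans ?_
      rw [hYs, norm_mul, norm_mul, norm_mul]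
      have h2 : ‖(a₀ : ℂ)‖ = |a₀| := by rw [norm_real, Real.norm_eq_abs]
      have h3 : ‖(q : ℂ) ^ (-(s / 2))‖ ≤ q ^ (A / 2) := by
        rw [norm_cpow_eq_rpow_re_of_pos hq0]
        refine Real.rpow_le_rpow_of_exponent_le hq1 ?_
        have h3 : (-(s / 2)).re = -s.re / 2 := by simp; ring
        rw [h3]
        have := (abs_le.mp hs).1
        linarith
      have h4 : ‖W (n * s / 2)‖ ≤ |M| * Real.exp (n * |s.im|) := by
        have h5 : |((n : ℂ) * s / 2).re| ≤ n * A / 2 := by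
          have h4 : ((n : ℂ) * s / 2).re = n * s.re / 2 := by simp
          rw [h4, abs_div, abs_mul, abs_of_pos hn0', abs_two]
          exact div_le_div_of_nonneg_right (mul_le_mul_of_nonneg_left hs hn0'.le) zero_le_two
        have h6 : |((n : ℂ) * s / 2).im| = n * |s.im| / 2 := by
          have h4 : ((n : ℂ) * s / 2).im = n * s.im / 2 := by simp
          rw [h4, abs_div, abs_mul, abs_of_pos hn0', abs_two]
        have h7 := hM _ h5
        rw [h6] at h7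
        have h8 : (1 + n * |s.im| / 2) ^ 2 ≤ Real.exp (n * |s.im|) := by
          have h9 := Real.add_one_le_exp (n * |s.im| / 2)
          calc (1 + n * |s.im| / 2) ^ 2 ≤ (Real.exp (n * |s.im| / 2)) ^ 2 := by
                refine pow_le_pow_left₀ (by positivity) ?_ 2
                linarith
            _ = Real.exp (n * |s.im|) := by
                rw [← Real.exp_nat_mul]
                congr 1
                push_cast
                ring
        refine h7.trans ?_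
        exact mul_le_mul (le_abs_self M) h8 (by positivity) (abs_nonneg _)
      have h5 := hg s hs
      rw [h2]
      calc |a₀| * ‖(q : ℂ) ^ (-(s / 2))‖ * ‖W (n * s / 2)‖ * ‖∏ σ : K →+* ℂ, (Gammaℝ (s + e' σ))⁻¹‖
          ≤ |a₀| * q ^ (A / 2) * (|M| * Real.exp (n * |s.im|)) * (K1 * Real.exp (c1 * |s.im|)) := by
            refine mul_le_mul ?_ h5 (norm_nonneg _) (by positivity)
            refine mul_le_mul ?_ h4 (norm_nonneg _) (by positivity)
            exact mul_le_mul_of_nonneg_left h3 (abs_nonneg _)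
        _ = K2 * Real.exp ((n + c1) * |s.im|) := by
            rw [hK2, add_mul, Real.exp_add]
            ring
        _ ≤ B * Real.exp (B * |s.im|) := by
            refine mul_le_mul hBK ?_ (Real.exp_pos _).le hB0
            exact Real.exp_le_exp.mpr (mul_le_mul_of_nonneg_right hBn (abs_nonneg _))
  · intro s hs
    have h1 : s ≠ 0 := by
      intro h0
      rw [h0] at hs
      simp at hs
      linarith
    have h2 := hZs s
    rw [hYser s hs] at h2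
    exact mul_left_cancel₀ h1 h2
  · intro s
    rw [← hq]
    have h1 := hYf s
    rw [← hZs s, ← hZs (1 - (starRingEnd ℂ) s), map_mul, map_sub, map_one, conj_conj] at h1
    calc s * (q : ℂ) ^ (s / 2) * Z s * ∏ σ : K →+* ℂ, (Gammaℝ (1 - s + e' σ))⁻¹
        = (q : ℂ) ^ (s / 2) * (s * Z s) * ∏ σ : K →+* ℂ, (Gammaℝ (1 - s + e' σ))⁻¹ := by ring
      _ = _ := h1
      _ = _ := by ring

end Pool.Agent.UN
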