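import Pool.Agent.helper1.UN.SpecU
import Pool.Agent.helper87.UN.SpecL

/-!
# Project CH (MP_2e0e07_nt), block Z: the zeta function of a number field is entire after multiplication by `s - 1`; uniform bounds

Targets: `HLZE_stmt` (existence of `Z(s) = (s - 1) ζ_K(s)`, structure `HLZ`), `CZR_stmt` (value at `1`), `CZN_stmt` (non-trivial characters of
finite order are not powers of the norm), `UBL_stmt`, `UBZ_stmt` (uniform bounds in `K`, `χ`, `s`).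

RULES. Row `chz:XXX`: file `Pool/Agent/<seat>/CH/XXX.lean`, `import Pool.Agent.helper10.CH.SpecZ` (plus library files named in the
docstring), `set_option autoImplicit false`, `namespace Pool.Agent.UN`, `open NumberField Complex` (for CZH, CZM as in SpecU: also `MeasureTheory NumberField.Units
NumberField.Units.dirichletUnitTheorem` and `open scoped Classical`), `theorem XXX (...) : XXX_stmt`; any other `_stmt` of the UN files may be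
added as a hypothesis (no circles). Auxiliary lemmas are prefixed `XXX_`. No straight double quotes, no convert / congr!. Land, note DONE + path, one line to helper10.
-/

set_option autoImplicit false

open NumberField Complex MeasureTheory NumberField.Units NumberField.Units.dirichletUnitTheorem

open scoped Classical

namespace Pool.Agent.UN

/-- the trivial character of the ideals -/
noncomputable def tc (K : Type) [Field K] [NumberField K] : Ideal (𝓞 K) → ℂ := fun I => if I = ⊥ then 0 else 1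

/-- `Z` is the function `(s - 1) ζ_K(s)`: entire, of at most exponential growth in vertical strips, Dirichlet series, Hecke's functional
equation `s D^(s/2) Z(s) ∏ Γ_ℝ(1-s+e)^(-1) = c (1-s) D^((1-s)/2) conj Z(1 - conj s) ∏ Γ_ℝ(s+e)^(-1)`. -/
structure HLZ (K : Type) [Field K] [NumberField K] (Z : ℂ → ℂ) : Prop where
  entire : Differentiable ℂ Z
  growth : ∀ A : ℝ, ∃ B : ℝ, ∀ s : ℂ, |s.re| ≤ A → ‖Z s‖ ≤ B * Real.exp (B * |s.im|)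
  series : ∀ s : ℂ, 1 < s.re → Z s = (s - 1) * ∑' a : Ideal (𝓞 K), tc K a * (Nm a : ℂ) ^ (-s)
  fe : ∃ (c : ℂ) (e : (K →+* ℂ) → ℝ), ‖c‖ = 1 ∧ (∀ σ, e σ = 0 ∨ e σ = 1) ∧ ∀ s : ℂ,
    s * ((Dc K : ℝ) : ℂ) ^ (s / 2) * Z s * ∏ σ : K →+* ℂ, (Gammaℝ (1 - s + e σ))⁻¹ =
    c * ((1 - s) * ((Dc K : ℝ) : ℂ) ^ ((1 - s) / 2) * (starRingEnd ℂ) (Z (1 - (starRingEnd ℂ) s)) *
      ∏ σ : K →+* ℂ, (Gammaℝ (s + e σ))⁻¹)

/-! ## The targets -/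

/-- **HLZE**: `(s - 1) ζ_K(s)` is entire, with Hecke's functional equation. -/
def HLZE_stmt : Prop := ∀ (K : Type) [Field K] [NumberField K], ∃ Z : ℂ → ℂ, HLZ K Z

/-- **UBL**: uniform bound for the L-functions of all primitive Hecke characters of finite order of all number fields of degree at most `n`. -/
def UBL_stmt : Prop := ∀ n : ℕ, ∃ C : ℝ, 1 ≤ C ∧ ∀ (K : Type) [Field K] [NumberField K] (f : Ideal (𝓞 K))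
  (χ : Ideal (𝓞 K) → ℂ) (L : ℂ → ℂ), Module.finrank ℚ K ≤ n → HCharG f χ (fun _ => 0) (fun _ => 0) →
  HLG f χ (fun _ => 0) (fun _ => 0) L → ∀ s : ℂ,
    ‖L s‖ ≤ (Dc K * Nm f) ^ (C * (1 + ‖s‖)) * Real.exp (C * (1 + ‖s‖) * Real.log (2 + ‖s‖))

/-- **UBZ**: uniform bound for `(s - 1) ζ_K(s)`. -/
def UBZ_stmt : Prop := ∀ n : ℕ, ∃ C : ℝ, 1 ≤ C ∧ ∀ (K : Type) [Field K] [NumberField K] (Z : ℂ → ℂ),
  Module.finrank ℚ K ≤ n → HLZ K Z → ∀ s : ℂ,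
    ‖Z s‖ ≤ (Dc K) ^ (C * (1 + ‖s‖)) * Real.exp (C * (1 + ‖s‖) * Real.log (2 + ‖s‖))

/-! ## Part 1: characters -/

/-- **CZT** (short). The trivial character is a primitive Hecke character of conductor `⊤`. `Ar 0 0 x = 1` (`ph 0 x = 1`, `zpow_zero`); an ideal product is `⊥` iff a factor is
(`Ideal.mul_eq_bot` / `mul_eq_zero`); no ideal is `> ⊤`. Second part: `HM`. Third: if `χ a = 1` for all `a ≠ ⊥` then `f = ⊤` (`zero` for `a = f`, `f ⊔ f = f`), `χ = tc K`. -/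
def CZT_stmt : Prop := ∀ (K : Type) [Field K] [NumberField K], HCharG ⊤ (tc K) (fun _ => 0) (fun _ => 0) ∧ HM ⊤ (tc K) ∧
  ∀ (f : Ideal (𝓞 K)) (χ : Ideal (𝓞 K) → ℂ), HCharG f χ (fun _ => 0) (fun _ => 0) → (∀ a, a ≠ ⊥ → χ a = 1) →
    f = ⊤ ∧ χ = tc K

/-- **CZN** (short/medium). uses: HGC or PRO. A non-trivial character with `τ = 0`, `m = 0` is not a power of the norm. Suppose `χ a = ph t₀ (log N(a))` for all `a ≠ ⊥` (so `t₀ ≠ 0`). `M = absNorm f ≥ 1`, `(M : 𝓞 K) ∈ f` (`Ideal.absNorm_mem`). For `x = 1 + M j`, `j = 1, 2` (natural numbers): `per` with `y = 1`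
(`x - 1 ∈ f`, `φ x > 0`) gives `χ(span {x}) = χ ⊤ = 1` (`Ar 0 0 = 1`), and `N(span {x}) = x^n`, so `t₀ n log (1 + M j) ∈ 2π ℤ` for `j = 1, 2`: so `log(1+M) / log(1+2M)` is rational, `(1+M)^a = (1+2M)^b` with natural numbers `a, b ≥ 1`: impossible, as
`1 + M`, `1 + 2M` are coprime (`2(1+M) - (1+2M) = 1`) and `> 1`. -/
def CZN_stmt : Prop := ∀ (K : Type) [Field K] [NumberField K] (f : Ideal (𝓞 K)) (χ : Ideal (𝓞 K) → ℂ),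
  HCharG f χ (fun _ => 0) (fun _ => 0) → (∃ a, a ≠ ⊥ ∧ χ a ≠ 1) → NT χ

/-! ## Part 2: from the theta functional equation to the Mellin transform -/

/-- **CZH** (short/medium; adaptation of VHD, Pool/Agent/helper1/UNH/VHD.lean). uses: VHC, VLV, CZT, PRO. `conj (tc (b c)) = 1` (`b c ≠ ⊥` by `Rep`). `c₀ = δ * card (ClassGroup) * (volume F).toReal`. If `δ = 0` nothing to do; if `δ = 1` then (`TF.del`) `e w = 0`, so `aa 0 e w = 0`, `ex 0 .. w = 0` and the product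
in `Th` is `1`: `∫ l in F, (1 + Th0 ..) = (volume F).toReal + ∫ l in F, Th0 ..` (`F` has finite measure: bounded; `Th0` integrable by VHC). Continuity and decay: VHC composed with `ρ ↦ ρ N_c^(-2/n)`. -/
def CZH_stmt : Prop := ∀ (K : Type) [Field K] [NumberField K] (e : InfinitePlace K → ℕ) (δ ε : ℂ)
  (b : ClassGroup (𝓞 K) → Ideal (𝓞 K)) (σ : ClassGroup (𝓞 K) ≃ ClassGroup (𝓞 K)) (β : ClassGroup (𝓞 K) → 𝓞 K)
  (F : Set (logSpace K)), TF ⊤ (tc K) (fun _ => 0) (fun _ => 0) e δ ε b σ β → FD K F →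
  ∃ c₀ : ℂ, (c₀ = 0 ∨ ∀ w, e w = 0) ∧
  (∀ ρ : ℝ, 0 < ρ → Hh F δ b (tc K) (fun _ => 0) (aa (fun _ => 0) e) ρ - c₀ =
    ∑ c, ∫ l in F, Th0 (b c) (tc K) (fun _ => 0) (aa (fun _ => 0) e) (Yl (ρ * Nm (b c) ^ (-(2 / (Module.finrank ℚ K : ℝ)))) l)) ∧
  ContinuousOn (Hh F δ b (tc K) (fun _ => 0) (aa (fun _ => 0) e)) (Set.Ioi 0) ∧
  ∀ r : ℝ, (fun ρ => Hh F δ b (tc K) (fun _ => 0) (aa (fun _ => 0) e) ρ - c₀) =O[Filter.atTop] (fun x : ℝ => x ^ r)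

/-- **CZM** (medium; adaptation of VML, Pool/Agent/helper59/UNH/VML.lean; the auxiliary lemmas of that file may be imported): `theorem CZM (hTFE : TFE_stmt) (hVFX : VFX_stmt) (hVFE : VFE_stmt) (hCZH : CZH_stmt) (hVCL : VCL_stmt) (hVMC : VMC_stmt) (hVID : VID_stmt) (hCZT : CZT_stmt) (hPRO : PRO_stmt) : CZM_stmt`.
As VML with `f = ⊤` (`Nm ⊤ = 1`), `χ = tc K`, `h r = Hh F δ b χ τ a (r/A)`, `A = D^(1/n)`; the Mellin transform is that of `h x - c₀`, the sum of the `Th0` parts (CZH); `conj (tc (b c)) = 1`. -/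
def CZM_stmt : Prop := ∀ (K : Type) [Field K] [NumberField K],
  ∃ (e : InfinitePlace K → ℕ) (ε c₀ : ℂ) (κ : ℝ) (h : ℝ → ℂ), (∀ w, e w ≤ 1) ∧ (∀ w, w.IsComplex → e w = 0) ∧
    (c₀ = 0 ∨ ∀ w, e w = 0) ∧ ‖ε‖ = 1 ∧ 0 < κ ∧ ContinuousOn h (Set.Ioi 0) ∧
    (∀ r : ℝ, (fun x => h x - c₀) =O[Filter.atTop] (fun x : ℝ => x ^ r)) ∧
    (∀ x : ℝ, 0 < x → h (1 / x) = ε * ((x ^ ((Module.finrank ℚ K : ℝ) / 2) : ℝ) : ℂ) * (starRingEnd ℂ) (h x)) ∧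
    ∀ s : ℂ, 1 < s.re → mellin (fun x => h x - c₀) ((Module.finrank ℚ K : ℂ) * s / 2) =
      κ * ((Dc K : ℝ) : ℂ) ^ (s / 2) * gf (fun _ => 0) (aa (fun _ => 0) e) s *
        ∑' a : Ideal (𝓞 K), tc K a * (Nm a : ℂ) ^ (-s)

/-- **CZW** (medium). Mathlib `WeakFEPair` (Mathlib/NumberTheory/LSeries/AbstractFuncEq.lean) with `f = h`, `g = conj ∘ h`, `f₀ = c₀`, `g₀ = conj c₀`. `W z = z (k - z) Λ₀ z - (k - z) c₀ - z ε conj c₀` (`= z (k - z) Λ z` for `z ≠ 0, k`). Entire: `differentiable_Λ₀`. Functional equation: `functional_equation₀`, and `P.symm.Λ₀ z = conj (P.Λ₀ (conj z))`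
(`P.symm.f_modif = conj ∘ P.f_modif` as `ε⁻¹ = conj ε`; `integral_conj`, `conj (x^w) = x^(conj w)` for `x > 0`); `ε conj ε = 1`. Bound: `‖Λ₀ z‖ ≤ ∫ x in Ioi 0, ‖f_modif x‖ (x^(A-1) + x^(-A-1)) = M`, finite (the Mellin transform of the strong pair converges at `A` and `-A`: `isStrongFEPair_toStrongFEPair`, `IsStrongFEPair.hasMellin`).
Last part: `WeakFEPair.hasMellin` for `k < Re z` (`z ≠ 0`, `z ≠ k`). -/
def CZW_stmt : Prop := ∀ (h : ℝ → ℂ) (k : ℝ) (ε c₀ : ℂ), 0 < k → ‖ε‖ = 1 → ContinuousOn h (Set.Ioi 0) →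
  (∀ r : ℝ, (fun x => h x - c₀) =O[Filter.atTop] (fun x : ℝ => x ^ r)) →
  (∀ x : ℝ, 0 < x → h (1 / x) = ε * ((x ^ k : ℝ) : ℂ) * (starRingEnd ℂ) (h x)) →
  ∃ W : ℂ → ℂ, Differentiable ℂ W ∧ (c₀ = 0 → W 0 = 0) ∧
    (∀ z : ℂ, W z = ε * (starRingEnd ℂ) (W (k - (starRingEnd ℂ) z))) ∧
    (∀ A : ℝ, ∃ M : ℝ, ∀ z : ℂ, |z.re| ≤ A → ‖W z‖ ≤ M * (1 + |z.im|) ^ 2) ∧
    ∀ z : ℂ, k < z.re → W z = z * (k - z) * mellin (fun x => h x - c₀) z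

/-- **CZE** (medium). uses: CZM, CZW (`k = n/2`), LGP (`τ = 0`, `m = 0`), PRO, `Pool.Agent.FL.ZGI` (Pool/Agent/helper39/FL/ZGI.lean, proved, may be imported). With `e'`, `C` from LGP put `Z₁ s = -(4 C/(n² κ)) D^(-s/2) W(n s/2) ∏_σ (Γ_ℝ(s + e' σ))⁻¹`, entire (`Complex.differentiable_Gammaℝ_inv`).
For `Re s > 1`: `W(ns/2) = -(n²/4) s (s-1) κ D^(s/2) gf s ζ_K(s)` and `∏ Γ_ℝ(s+e') = C gf s ≠ 0`, so `Z₁ s = s (s-1) ζ_K(s)`. `Z₁ 0 = 0`: if `c₀ = 0` then `W 0 = 0`; if `e = 0`: `gf 0 (aa 0 0) 0 = 0` in Lean (`Gamma 0 = 0`), so by LGP at `s = 0` some `Γ_ℝ(e' σ) = 0` (`n ≥ 1`).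
`Z = dslope Z₁ 0`: entire (`Complex.differentiableOn_dslope`), `s Z s = Z₁ s` for all `s` (`sub_smul_dslope`). FE: both sides are `-(4C/(n²κ)) W(ns/2) ∏ (Γ_ℝ(s+e'))⁻¹ ∏ (Γ_ℝ(1-s+e'))⁻¹`, with `c = ε` (`(1-s) conj Z(1 - conj s) = conj (Z₁ (1 - conj s))`, FE of `W`: `n/2 - conj(ns/2) = n (1 - conj s)/2`; `conj (Γ_ℝ z) = Γ_ℝ (conj z)`,
`D^(conj z) = conj (D^z)`). Growth: `‖s‖ ≥ 1`: `‖Z s‖ ≤ ‖Z₁ s‖ ≤ B exp(B |Im s|)` (ZGI, `1 + x ≤ exp x`); `‖s‖ ≤ 1`: compactness. -/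
theorem CZE_doc : True := trivial

/-- **CZR** (medium). uses: VZS, CZT, PRO, FIN0. `∑' a, tc a N(a)^(-s)` grouped by the norm is `dedekindZeta K s` (`Mathlib/NumberTheory/NumberField/DedekindZeta.lean`: LSeries of the number of ideals of norm `n`; the term `n = 0` is `0` in both). Summable by VZS: `Summable.tsum_sigma` along `Ideal.absNorm` (`Equiv.sigmaFiberEquiv`), the fibres are finite
(`finite_setOfPred_absNorm_eq`). Then `Z` is continuous at `1`, `Z s = (s-1) dedekindZeta K s` for real `s > 1`, and `NumberField.tendsto_sub_one_mul_dedekindZeta_nhdsGT`. -/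
def CZR_stmt : Prop := ∀ (K : Type) [Field K] [NumberField K] (Z : ℂ → ℂ), HLZ K Z →
  Z 1 = (dedekindZeta_residue K : ℂ) ∧
  ∀ s : ℂ, 1 < s.re → Summable (fun a : Ideal (𝓞 K) => tc K a * (Nm a : ℂ) ^ (-s)) ∧
    ∑' a : Ideal (𝓞 K), tc K a * (Nm a : ℂ) ^ (-s) = dedekindZeta K s

/-! ## Part 3: uniform bounds -/

/-- **CUG** (medium). Global bounds for `Γ_ℝ`. Uses `Pool.Agent.FL.ZGI` (Pool/Agent/helper39/FL/ZGI.lean, proved, may be imported) for `A = 3`: `‖(Γ_ℝ s)⁻¹‖ ≤ C₀ exp(C₀ |Im s|)` for `|Re s| ≤ 3`. Induction on `k`: for `|Re s| ≤ 3 + 2k`: `‖(Γ_ℝ s)⁻¹‖ ≤ C₀ exp(C₀ |Im s|) (‖s‖ + 7)^k`: `Γ_ℝ(w + 2) = Γ_ℝ(w) w/(2π)`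
(`Complex.Gammaℝ_add_two`): for `Re s < -3` use `w = s`, `(Γ_ℝ s)⁻¹ = (Γ_ℝ(s+2))⁻¹ s/(2π)`, `‖s + 2‖ ≤ ‖s‖`; for `Re s > 3` use `w = s - 2`, `‖w‖ ≥ 1`, `‖w‖ ≤ ‖s‖`, `(Γ_ℝ s)⁻¹ = (Γ_ℝ w)⁻¹ 2π/w`. Then `k = ⌈‖s‖⌉`. Second part: `‖Γ_ℝ s‖ ≤ Γ_ℝ(Re s)` (`|Γ(z)| ≤ Γ(Re z)`, see `XB_Gamma_le` in
`Pool/Agent/helper74/DM/XB.lean`), bounded for `1 ≤ Re s ≤ 3`, then induction with `Γ_ℝ s = Γ_ℝ(s-2) (s-2)/(2π)`. -/
def CUG_stmt : Prop := ∃ C : ℝ, 1 ≤ C ∧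
  (∀ s : ℂ, ‖(Gammaℝ s)⁻¹‖ ≤ Real.exp (C * (1 + ‖s‖) * Real.log (2 + ‖s‖))) ∧
  ∀ s : ℂ, 1 ≤ s.re → ‖Gammaℝ s‖ ≤ Real.exp (C * (1 + ‖s‖) * Real.log (2 + ‖s‖))

/-- **CUP** (medium). The strip `-3/2 ≤ Re s ≤ 2`. uses: `Pool.Agent.FL.ZGR` (Pool/Agent/helper8/FL/ZGR.lean, proved, may be imported). Line `Re s = -3/2`: `1 - conj s = s + 4`, so `‖Γ_ℝ(1 - s + e)‖ = ‖Γ_ℝ(s + e + 4)‖` (conjugate) and ZGR with `N = 2`: the product over `i` is `≤ ((‖s‖ + 5)^2)^(card ι)`, and `‖L(1 - conj s)‖ = ‖L(s+4)‖ ≤ C₁ (‖s‖ + 5)`: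
`‖L s‖ ≤ C₁² q² (‖s‖+5)^(2n+1)`. On the strip `‖s‖ + 5 ≤ 7 ‖s + 3‖`, `1 ≤ ‖s + 3‖`. `G s = L s / (s + 3)^(2n+1)` has `‖G‖ ≤ C₁² q² 7^(2n+1)` on both lines; `PhragmenLindelof.vertical_strip` (as in `Pool/Agent/helper67/FL/ZPL.lean`). -/
def CUP_stmt : Prop := ∀ (n : ℕ) (C₁ : ℝ), 1 ≤ C₁ → ∀ (ι : Type) [Fintype ι] (e : ι → ℝ) (q : ℝ) (L : ℂ → ℂ),
  Fintype.card ι ≤ n → (∀ i, e i = 0 ∨ e i = 1) → 1 ≤ q → Differentiable ℂ L →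
  (∃ B : ℝ, ∀ s : ℂ, |s.re| ≤ 2 → ‖L s‖ ≤ B * Real.exp (B * |s.im|)) →
  (∀ s : ℂ, 2 ≤ s.re → ‖L s‖ ≤ C₁ * (1 + ‖s‖)) →
  (∀ s : ℂ, s.re ≤ -(3 / 2) → ‖L s‖ ≤ C₁ * q ^ (1 / 2 - s.re) * ‖L (1 - (starRingEnd ℂ) s)‖ *
    ∏ i, (‖Gammaℝ (1 - s + e i)‖ * ‖(Gammaℝ (s + e i))⁻¹‖)) →
  ∀ s : ℂ, -(3 / 2) ≤ s.re → s.re ≤ 2 → ‖L s‖ ≤ C₁ ^ 2 * 7 ^ (2 * n + 1) * q ^ (2 : ℝ) * ‖s + 3‖ ^ (2 * n + 1)

/-- **CUB** (medium). uses: CUP, CUG. All `s`. `Re s ≥ 2`: hypothesis. `Re s ≤ -3/2`: `q^(1/2 - Re s) ≤ q^(1+‖s‖)`, `‖L(1 - conj s)‖ ≤ C₁ (2 + ‖s‖)`, CUG for `1 - s + e` (`Re ≥ 1`, norm `≤ 2 + ‖s‖`) and `s + e`. The strip: CUP, `2 ≤ 2 (1 + ‖s‖)`, `‖s+3‖ ≤ (2+‖s‖)^2`, `log 2 > 0`. -/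
def CUB_stmt : Prop := ∀ (n : ℕ) (C₁ : ℝ), 1 ≤ C₁ → ∃ C : ℝ, 1 ≤ C ∧ ∀ (ι : Type) [Fintype ι] (e : ι → ℝ) (q : ℝ)
  (L : ℂ → ℂ), Fintype.card ι ≤ n → (∀ i, e i = 0 ∨ e i = 1) → 1 ≤ q → Differentiable ℂ L →
  (∃ B : ℝ, ∀ s : ℂ, |s.re| ≤ 2 → ‖L s‖ ≤ B * Real.exp (B * |s.im|)) →
  (∀ s : ℂ, 2 ≤ s.re → ‖L s‖ ≤ C₁ * (1 + ‖s‖)) →
  (∀ s : ℂ, s.re ≤ -(3 / 2) → ‖L s‖ ≤ C₁ * q ^ (1 / 2 - s.re) * ‖L (1 - (starRingEnd ℂ) s)‖ *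
    ∏ i, (‖Gammaℝ (1 - s + e i)‖ * ‖(Gammaℝ (s + e i))⁻¹‖)) →
  ∀ s : ℂ, ‖L s‖ ≤ q ^ (C * (1 + ‖s‖)) * Real.exp (C * (1 + ‖s‖) * Real.log (2 + ‖s‖))

/-- **CUD** (medium; adaptation of FSM, Pool/Agent/helper54/UN/FSM.lean). uses: IDN (`ε = 1/4`; for each degree `1 ≤ k ≤ n`, take the sum of the constants), FIN0, PRO. Uniform bound for the Dirichlet series: dyadic blocks `2^j ≤ N(a) < 2^(j+1)`: at most `C 2^((j+1) 5/4)` ideals, each term at most `2^(-2j)`. -/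
def CUD_stmt : Prop := ∀ n : ℕ, ∃ C : ℝ, 1 ≤ C ∧ ∀ (K : Type) [Field K] [NumberField K] (χ : Ideal (𝓞 K) → ℂ),
  Module.finrank ℚ K ≤ n → (∀ a, ‖χ a‖ ≤ 1) → χ ⊥ = 0 → ∀ s : ℂ, 2 ≤ s.re →
    ‖∑' a : Ideal (𝓞 K), χ a * (Nm a : ℂ) ^ (-s)‖ ≤ C

/-- **CUL** (short/medium): `theorem CUL (hCUB : CUB_stmt) (hCUD : CUD_stmt) (hHGC : HGC_stmt) (hPRO : PRO_stmt) : UBL_stmt`. CUB with `ι = K →+* ℂ` (`NumberField.Embeddings.card`), `q = D N(f) ≥ 1`, `C₁` from CUD. Growth: `B (1+|t|)^B ≤ B' exp(B' |t|)`. Left half plane: norm of both sides of `HLG.fe` (`τ = 0`, `m = 0`),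
`Γ_ℝ(1 - s + e) ≠ 0` (positive real part), `‖q^(s/2)‖ = q^(Re s/2)`. `‖χ a‖ ≤ 1` from `HM` (`unit`, `zero`, `bot`). -/
theorem CUL_doc : True := trivial

/-- **CUZ** (short/medium): `theorem CUZ (hCUB : CUB_stmt) (hCUD : CUD_stmt) (hPRO : PRO_stmt) : UBZ_stmt`. As CUL with `q = D`; `‖s - 1‖ ≤ 1 + ‖s‖`; in the functional equation `‖1 - s‖ ≤ 2 ‖s‖` for `Re s ≤ -3/2`, so `C₁ ≥ 2`. -/
theorem CUZ_doc : True := trivial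

end Pool.Agent.UN
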